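import Pool.Agent.Lib.P4de4a9.Lower

/-!
# The k-restricted ET0L hierarchy collapses exactly at level two
-/

namespace Pool.Agent.Results.MP_4de4a9_lc.ExactThreshold

open Pool.Agent.P4de4a9

/-- The least positive integer `ℓ` such that `L(ET0L_[k]) = L(ET0L_[k+1])` for every `k ≥ ℓ`
is `2`. -/
theorem result :
    IsLeast {l : ℕ | 1 ≤ l ∧ ∀ k, l ≤ k → ∀ T : Type, Fam T k = Fam T (k + 1)} 2 := by
  constructor
  · refine ⟨by norm_num, ?_⟩
    intro k hk T
    exact (fam_eq_two hk).trans (fam_eq_two (by omega)).symm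
  · rintro l ⟨h1, h2⟩
    by_contra hl
    have hl1 : l = 1 := by omega
    subst hl1
    exact fam_one_ne (h2 1 le_rfl (Fin 3))

end Pool.Agent.Results.MP_4de4a9_lc.ExactThreshold
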